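import Mathlib
import Pool.Agent.Lib_helper68.OG10
import Pool.Agent.Lib_helper80.CS.Final

set_option autoImplicit false

namespace Pool.Agent.H80Old.MP931ImpliesNotCH

/-- `P(α)`: every graph whose vertex set is (the canonical well-ordered set of type) `α` has an
infinite path, i.e. an injective sequence of vertices with consecutive terms adjacent, or a set
of pairwise non-adjacent vertices of order type exactly `α`. -/
def PathOrIndep (α : Ordinal.{0}) : Prop :=
  ∀ G : SimpleGraph α.ToType,
    (∃ f : ℕ → α.ToType, Function.Injective f ∧ ∀ n, G.Adj (f n) (f (n + 1))) ∨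
    (∃ S : Set α.ToType, (∀ x ∈ S, ∀ y ∈ S, ¬ G.Adj x y) ∧
      Ordinal.type (fun x y : S => x < y) = α)

/-- If `P(α)` holds for a single ordinal `α` whose remainder on division by `ω₂` is at least the
ordinal power `ω₁ ^ (ω + 2)`, in particular for a single `α` with `ω₁ ^ (ω + 2) ≤ α < ω₂`, then the
continuum hypothesis fails: `ℵ₁ < 2 ^ ℵ₀`. -/
theorem result (α : Ordinal.{0})
    (hα : (Cardinal.aleph 1).ord ^ (Ordinal.omega0 + 2) ≤ α % (Cardinal.aleph 2).ord)
    (hP : PathOrIndep α) : Cardinal.aleph 1 < Cardinal.continuum.{0} := by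
  by_contra hcon
  have hCH : Cardinal.continuum.{0} = Cardinal.aleph 1 := by
    refine le_antisymm (not_lt.1 hcon) ?_
    rw [← Cardinal.succ_aleph0]
    exact Order.succ_le_of_lt Cardinal.aleph0_lt_continuum
  have hdm := Ordinal.div_add_mod α (Cardinal.aleph 2).ord
  set ε := α % (Cardinal.aleph 2).ord with hε
  have h0 : (Cardinal.aleph 2 : Cardinal.{0}).ord ≠ 0 := by
    rw [Ne, Cardinal.ord_eq_zero]
    exact (Cardinal.aleph_pos 2).ne'
  have hlt : ε < (Cardinal.aleph 2).ord := Ordinal.mod_lt α h0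
  have hPε : Pool.Agent.H68.OG.PI ε := by
    have h1 : Pool.Agent.H68.OG.PI ((Cardinal.aleph 2).ord * (α / (Cardinal.aleph 2).ord) + ε) := by
      rw [hdm]
      exact hP
    exact Pool.Agent.H68.OG.pi_tail h1
  have hcard : Cardinal.mk ε.ToType ≤ Cardinal.aleph 1 := by
    rw [Cardinal.mk_toType]
    have h2 : Cardinal.aleph 2 = Order.succ (Cardinal.aleph 1) := by
      rw [Cardinal.succ_aleph]
      congr 1
      norm_num
    rw [Cardinal.lt_ord, h2] at hlt
    exact Order.lt_succ_iff.1 hlt
  obtain ⟨G, h1, h2⟩ := Pool.Agent.CS.ch_graph hCH ε.ToType hcard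
  rcases hPε G with h | ⟨S, hS, hS'⟩
  · exact h1 h
  · have h3 := h2 S hS
    rw [hS', ← Cardinal.ord_aleph 1] at h3
    exact absurd h3 (not_lt.2 hα)

end Pool.Agent.H80Old.MP931ImpliesNotCH
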